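import Pool.Agent.Results.MP_f6e9a2_nt.ShiftsByArbitrarySets
import Pool.Agent.Y881.BI.Final

/-!
# Difference sums over unions of pieces nearly invariant under arbitrary small sets of translations

Let `D = ⊔ A i` be a disjoint union of any number of sets. Each piece grows by a factor at most `p ^ τ` when some set
`T i` with at least `p ^ ε` elements is added; the sets `T i` are arbitrary (no progressions, no condition on their
doubling) and may be different for different pieces. If for most pairs of pieces the differences are not concentrated on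
`p ^ (1 / 2 + ε)` elements, for instance if the additive energy is small, then the inequality of the question holds for
all dense subsets of `D` and for their images under fractional linear maps.

The bound for the forms is the theorem `MP_f6e9a2_nt.ShiftsByArbitrarySets` (sums `a + b` over two unions), applied to
the pieces `A i` and `- A j`.
-/

set_option autoImplicit false

namespace Pool.Agent.Results.MP_cb27ba_nt.ArbitraryShifts

open Finset
open scoped Pointwise

/-- `T` has at least `p ^ ε` elements and `|A + T| ≤ p ^ τ |A|` -/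
structure NearlyInvariant (p : ℕ) (ε τ : ℝ) (A T : Finset (ZMod p)) : Prop where
  large : (p : ℝ) ^ ε ≤ T.card
  invariant : ((A + T).card : ℝ) ≤ (p : ℝ) ^ τ * A.card

/-- No set of at most `p ^ (1 / 2 + ε)` elements contains more than `p ^ (- ε) |A| |B|` of the differences `a - b`,
`(a, b) ∈ A × B`. -/
def Spread (p : ℕ) (ε : ℝ) (A B : Finset (ZMod p)) : Prop :=
  ∀ X : Finset (ZMod p), (X.card : ℝ) ≤ (p : ℝ) ^ (1 / 2 + ε) →
    (((A ×ˢ B).filter fun t => t.1 - t.2 ∈ X).card : ℝ) ≤ (p : ℝ) ^ (-ε) * (A.card * B.card)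

/-- the number of differences in `X` of `A` and `B` is the number of sums in `X` of `A` and `- B` -/
lemma diff_card {p : ℕ} (A B X : Finset (ZMod p)) :
    ((A ×ˢ (-B)).filter fun t => t.1 + t.2 ∈ X).card = ((A ×ˢ B).filter fun t => t.1 - t.2 ∈ X).card := by
  classical
  refine card_bij (fun t _ => (t.1, -t.2)) ?_ ?_ ?_
  · intro t ht
    have h1 := mem_filter.1 ht
    have h2 := mem_product.1 h1.1
    refine mem_filter.2 ⟨mem_product.2 ⟨h2.1, mem_neg'.1 h2.2⟩, ?_⟩
    show t.1 - -t.2 ∈ X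
    rw [sub_neg_eq_add]
    exact h1.2
  · intro t _ s _ hts
    have h1 := Prod.ext_iff.1 hts
    exact Prod.ext h1.1 (neg_injective h1.2)
  · intro t ht
    have h1 := mem_filter.1 ht
    have h2 := mem_product.1 h1.1
    refine ⟨(t.1, -t.2), mem_filter.2 ⟨mem_product.2 ⟨h2.1, mem_neg'.2 (by rw [neg_neg]; exact h2.2)⟩, ?_⟩, ?_⟩
    · show t.1 + -t.2 ∈ X
      rw [← sub_eq_add_neg]
      exact h1.2
    · exact Prod.ext rfl (neg_neg _)

/-- small additive energy implies that the differences are spread -/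
theorem spread_of_energy {p : ℕ} [Fact p.Prime] (ε : ℝ) (A : Finset (ZMod p))
    (hE : (Finset.addEnergy A A : ℝ) ≤ (p : ℝ) ^ (-(1 / 2) - 3 * ε) * (A.card : ℝ) ^ 4) : Spread p ε A A := by
  intro X hX
  have hp0 : (0 : ℝ) < p := by exact_mod_cast (Fact.out : p.Prime).pos
  have h1 := Pool.Agent.Y881.DS.pairs_sq A X
  refine le_of_sq_le_sq ?_ (by positivity)
  calc (((A ×ˢ A).filter fun t => t.1 - t.2 ∈ X).card : ℝ) ^ 2 ≤ X.card * (Finset.addEnergy A A : ℝ) := by
        convert h1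
    _ ≤ (p : ℝ) ^ (1 / 2 + ε) * ((p : ℝ) ^ (-(1 / 2) - 3 * ε) * (A.card : ℝ) ^ 4) :=
        mul_le_mul hX hE (Nat.cast_nonneg _) (by positivity)
    _ = ((p : ℝ) ^ (-ε) * (A.card * A.card)) ^ 2 := by
        have e1 : ((p : ℝ) ^ (-ε)) ^ 2 = (p : ℝ) ^ (1 / 2 + ε + (-(1 / 2) - 3 * ε)) := by
          rw [← Real.rpow_natCast, ← Real.rpow_mul hp0.le]
          congr 1
          push_cast
          ring
        rw [mul_pow ((p : ℝ) ^ (-ε)), e1, ← mul_assoc, ← Real.rpow_add hp0]
        ring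

/-- For every `ε > 0` there are `τ > 0` and `p₀` with the following property for all primes `p ≥ p₀` and all
nonprincipal characters `χ` modulo `p`. Let `D = ⊔ A i`, where `A i` is nearly invariant under the translations by an
arbitrary set `T i` with at least `p ^ ε` elements, and let the differences of `A i` and `A j` be spread for all `(i, j)`
outside a set `E` of pairs with `∑ |A i| |A j| ≤ p ^ (- ε) |D| ^ 2`. (The differences of a set `A` with itself are spread if
its additive energy is at most `p ^ (-1/2 - 3 ε) |A| ^ 4`.)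

* For all `f`, `g` the sum of `f a * g b * χ (a - b)` over `D × D` is at most `p ^ (- τ) |D| ‖f‖ ‖g‖`.
* If `A' ⊆ D` is nonempty and `|D| ≤ p ^ τ |A'|`, then `|∑ χ (x - y)| < |C| ^ (2 - τ)`, sum over `x, y ∈ C`, for every
  image `C` of `A'` under a fractional linear map without poles in `A'`. -/
theorem result (ε : ℝ) (hε : 0 < ε) : ∃ τ : ℝ, 0 < τ ∧ ∃ p₀ : ℕ,
    ∀ p : ℕ, p.Prime → p₀ ≤ p → ∀ χ : DirichletCharacter ℂ p, χ ≠ 1 →
    (∀ A : Finset (ZMod p), (Finset.addEnergy A A : ℝ) ≤ (p : ℝ) ^ (-(1 / 2) - 3 * ε) * (A.card : ℝ) ^ 4 →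
      Spread p ε A A) ∧
    ∀ (n : ℕ) (A T : Fin n → Finset (ZMod p)) (D : Finset (ZMod p)) (E : Finset (Fin n × Fin n)),
      (∀ i, NearlyInvariant p ε τ (A i) (T i)) → (∀ i j, i ≠ j → Disjoint (A i) (A j)) →
      D = Finset.univ.biUnion A → (∀ i j, (i, j) ∉ E → Spread p ε (A i) (A j)) →
      ∑ e ∈ E, ((A e.1).card : ℝ) * (A e.2).card ≤ (p : ℝ) ^ (-ε) * (D.card * D.card) →
      (∀ f g : ZMod p → ℂ, ‖∑ a ∈ D, ∑ b ∈ D, f a * g b * χ (a - b)‖ ≤
        (p : ℝ) ^ (-τ) * D.card * (Real.sqrt (∑ a ∈ D, ‖f a‖ ^ 2) * Real.sqrt (∑ b ∈ D, ‖g b‖ ^ 2))) ∧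
      ∀ A' : Finset (ZMod p), A'.Nonempty → A' ⊆ D → (D.card : ℝ) ≤ (p : ℝ) ^ τ * A'.card →
        ∀ α β γ δ : ZMod p, α * δ - β * γ ≠ 0 → (∀ a ∈ A', γ * a + δ ≠ 0) →
          ∀ C : Finset (ZMod p), C = (A'.image fun a => (α * a + β) * (γ * a + δ)⁻¹) →
            ‖∑ x ∈ C, ∑ y ∈ C, χ (x - y)‖ < (C.card : ℝ) ^ (2 - τ) := by
  classical
  obtain ⟨σ, hσ0, p₀, h⟩ := Pool.Agent.Results.MP_f6e9a2_nt.ShiftsByArbitrarySets.result ε hε
  refine ⟨σ / 4, by positivity, p₀, ?_⟩
  intro p hpp hp χ hχ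
  have hF : Fact p.Prime := ⟨hpp⟩
  refine ⟨fun A hE => spread_of_energy ε A hE, ?_⟩
  intro n A T D E hA hdisj hD hsp hE
  have hp1 : (1 : ℝ) < p := by exact_mod_cast hpp.one_lt
  have hpR : (1 : ℝ) ≤ p := hp1.le
  have hp0 : (0 : ℝ) < p := by linarith
  have hτ4 : (p : ℝ) ^ (σ / 4) ≤ (p : ℝ) ^ σ := Real.rpow_le_rpow_of_exponent_le hpR (by linarith)
  have hDneg : -D = Finset.univ.biUnion fun i => -A i := by
    ext x
    rw [mem_neg', hD]
    simp only [mem_biUnion, mem_neg']
  have h1 := (h p hpp hp χ hχ).2 n n A T (fun i => -A i) (fun i => -T i) D (-D) E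
    (fun i => ⟨(hA i).large, (hA i).invariant.trans (mul_le_mul_of_nonneg_right hτ4 (Nat.cast_nonneg _))⟩)
    (fun i => ⟨by rw [card_neg]; exact (hA i).large, by
      have e1 : -A i + -T i = -(A i + T i) := by rw [neg_add]
      rw [e1, card_neg, card_neg]
      exact (hA i).invariant.trans (mul_le_mul_of_nonneg_right hτ4 (Nat.cast_nonneg _))⟩)
    hdisj
    (fun i j hij => by
      rw [disjoint_left]
      intro x hx hx'
      exact disjoint_left.1 (hdisj i j hij) (mem_neg'.1 hx) (mem_neg'.1 hx'))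
    hD hDneg
    (fun i j hij X hX => by
      have h2 := hsp i j hij X hX
      rw [card_neg]
      rw [← diff_card] at h2
      convert h2)
    (by
      simp only [card_neg]
      exact hE)
  obtain ⟨hform, _⟩ := h1
  have hsum : ∀ F : ZMod p → ℂ, ∑ b ∈ -D, F b = ∑ b ∈ D, F (-b) := by
    intro F
    rw [← image_neg_eq_neg, sum_image fun x _ y _ hxy => neg_injective hxy]
  have hsumR : ∀ F : ZMod p → ℝ, ∑ b ∈ -D, F b = ∑ b ∈ D, F (-b) := by
    intro F
    rw [← image_neg_eq_neg, sum_image fun x _ y _ hxy => neg_injective hxy]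
  have hall : ∀ f g : ZMod p → ℂ, ‖∑ a ∈ D, ∑ b ∈ D, f a * g b * χ (a - b)‖ ≤
        (p : ℝ) ^ (-σ) * D.card * (Real.sqrt (∑ a ∈ D, ‖f a‖ ^ 2) * Real.sqrt (∑ b ∈ D, ‖g b‖ ^ 2)) := by
    intro f g
    have h2 := hform f (fun b => g (-b))
    simp only [hsum, hsumR, neg_neg, card_neg] at h2
    have e1 : Real.sqrt ((D.card : ℝ) * D.card) = D.card := Real.sqrt_mul_self (Nat.cast_nonneg _)
    rw [e1] at h2
    simp only [← sub_eq_add_neg] at h2
    exact h2
  refine ⟨fun f g => ?_, fun A' hne hA' hdense α β γ δ hdet hpole C hC => ?_⟩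
  · refine (hall f g).trans (mul_le_mul_of_nonneg_right (mul_le_mul_of_nonneg_right ?_ (Nat.cast_nonneg _))
      (by positivity))
    exact Real.rpow_le_rpow_of_exponent_le hpR (by linarith)
  · obtain ⟨h1, h2⟩ := Pool.Agent.Y881.BI.mob_sum χ A' ((p : ℝ) ^ (-σ) * D.card)
      (by positivity) (Pool.Agent.Y881.BI.form_sub D D A' hA' hA' (fun a b => χ (a - b)) _ hall) α β γ δ hdet
      hpole C hC
    have hA'c : (0 : ℝ) < A'.card := by exact_mod_cast hne.card_pos
    have hA'p : (A'.card : ℝ) ≤ p := by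
      have := card_le_univ A'
      rw [ZMod.card] at this
      exact_mod_cast this
    rw [h1]
    refine lt_of_le_of_lt h2 ?_
    have h3 : (A'.card : ℝ) ^ (σ / 4) ≤ (p : ℝ) ^ (σ / 4) :=
      Real.rpow_le_rpow hA'c.le hA'p (by positivity)
    have h4 : (A'.card : ℝ) ^ (2 - σ / 4) = (A'.card : ℝ) ^ 2 / (A'.card : ℝ) ^ (σ / 4) := by
      rw [Real.rpow_sub hA'c, Real.rpow_two]
    rw [h4, lt_div_iff₀ (by positivity)]
    calc (p : ℝ) ^ (-σ) * D.card * A'.card * (A'.card : ℝ) ^ (σ / 4)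
        ≤ (p : ℝ) ^ (-σ) * ((p : ℝ) ^ (σ / 4) * A'.card) * A'.card * (p : ℝ) ^ (σ / 4) := by
          refine mul_le_mul ?_ h3 (by positivity) (by positivity)
          refine mul_le_mul_of_nonneg_right ?_ hA'c.le
          exact mul_le_mul_of_nonneg_left hdense (by positivity)
      _ = (p : ℝ) ^ (-σ + σ / 4 + σ / 4) * (A'.card : ℝ) ^ 2 := by
          rw [Real.rpow_add hp0, Real.rpow_add hp0]
          ring
      _ < 1 * (A'.card : ℝ) ^ 2 := by
          refine mul_lt_mul_of_pos_right ?_ (by positivity)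
          exact Real.rpow_lt_one_of_one_lt_of_neg hp1 (by linarith)
      _ = _ := one_mul _

end Pool.Agent.Results.MP_cb27ba_nt.ArbitraryShifts
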