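import Pool.Agent.Q213.FD.One
import Pool.Agent.Q213.FD.Diff

/-!
# Difference sums over `1 / (A_p + t)` for nearly all primes with one integer `t`

Let for every prime `p` an arbitrary set `A_p` of more than `p ^ δ` residues and a nonprincipal
character `χ_p` be given. We change the digits of an arbitrary integer in base `b` at a few places. For
all but a proportion `y ^ (- A)` of the choices of the places the integer `t` obtained has the
following properties, simultaneously for all integers `y ≤ x ≤ exp (c r)` and for all members of a family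
of `x ^ A` such systems.

1. For every `τ < 1 / 2` the bound `|S_χ(M)| < |M| ^ (2 - τ)` of the question holds for the Moebius image
   `M = 1 / (A_p + t)` for all primes `p ≤ x` but at most `x ^ (1 - δ (1 - 2 τ) + ε)`.
2. For all primes `p ≤ x` but at most `x ^ (1 - η + ε)` it holds for all characters modulo `p` but at
   most `p ^ (2 η)`, with `τ = τ(δ, η) > 0`.
3. The same as 2. for the projections `{z₁ + t z₂}` of planar sets `P_p` with more than `p ^ δ` points,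
   at most `|P_p| ^ (1 - κ)` of them on every line (for instance for the sets `X_p + t Y_p`).

Proof.  For a fixed prime the starting library `H735CB` bounds the number of the exceptional residues
`t`, or pairs of a residue and a character; the law `TH894.NE.law3` for integers with a few changed
digits transfers the densities of the exceptional residues to one integer and nearly all primes.
-/

set_option autoImplicit false

namespace Pool.Agent.Results.MP_cb27ba_nt.FewDigitMoebius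

open Finset

/-- The image of the set `A` under the Moebius map `x ↦ 1/(x+t)` (the pole `-t` is left out). -/
def mob {p : ℕ} (A : Finset (ZMod p)) (t : ZMod p) : Finset (ZMod p) :=
  (A.filter (fun a => a + t ≠ 0)).image (fun a => (a + t)⁻¹)

/-- The digit number `i` (counted from the right, beginning with `0`) of `n` in base `b`. -/
def digit (b i n : ℕ) : ℕ := n / b ^ i % b

/-- The number which arises from the number `N` with at most `K` digits in base `b`, if for every `i ∈ S`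
the digit number `i` is replaced by `f i`. -/
def change (b K N : ℕ) (f : ℕ → ℕ) (S : Finset ℕ) : ℕ :=
  ∑ i ∈ range K, (if i ∈ S then f i else digit b i N) * b ^ i

open Classical in
/-- The number of the choices of `r` of the `K` positions for which the number obtained from `N` by
changing the digits at the chosen positions (according to `f`) does not have the property `E`. -/
noncomputable def exceptions (b K r N : ℕ) (f : ℕ → ℕ) (E : ℕ → Prop) : ℕ :=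
  ((powersetCard r (range K)).filter (fun S => ¬ E (change b K N f S))).card

open Classical in
/-- The number of the primes `p ≤ x` with the property `B`. -/
noncomputable def countPrimes (x : ℕ) (B : ℕ → Prop) : ℕ :=
  ((range (x + 1)).filter (fun p => p.Prime ∧ B p)).card

/-- For every prime a set of more than `p ^ δ` residues. -/
structure Sets (δ : ℝ) where
  A : (p : ℕ) → Finset (ZMod p)
  large : ∀ p : ℕ, p.Prime → (p : ℝ) ^ δ < (A p).card

/-- For every prime a nonprincipal character. -/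
structure Chars where
  χ : (p : ℕ) → DirichletCharacter ℂ p
  nonprincipal : ∀ p : ℕ, p.Prime → χ p ≠ 1

/-- For every prime a set of more than `p ^ δ` points of the plane, at most `|P| ^ (1 - κ)` of them on
every line. -/
structure Planar (δ κ : ℝ) where
  P : (p : ℕ) → Finset (ZMod p × ZMod p)
  large : ∀ p : ℕ, p.Prime → (p : ℝ) ^ δ < (P p).card
  lines : ∀ p : ℕ, p.Prime → ∀ α β γ : ZMod p, (α ≠ 0 ∨ β ≠ 0) →
    (((P p).filter (fun z => α * z.1 + β * z.2 = γ)).card : ℝ) ≤ ((P p).card : ℝ) ^ (1 - κ)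

/-- For all but a proportion `y ^ (- A)` of the ways to change `r ≤ K / 2` of the `K` digits of an
integer (`y ≥ y₀`), the integer obtained has the property `E x` for all `y ≤ x ≤ exp (c r)`. Here the
property may depend on a family `Λ`. -/
def FewDigitLaw {κ : Type} (b : ℕ) (A : ℝ) (E : Finset κ → ℕ → ℕ → Prop) : Prop :=
  ∃ c : ℝ, 0 < c ∧ ∃ y₀ : ℕ, ∀ K r y : ℕ, 2 * r ≤ K → y₀ ≤ y →
    ∀ N : ℕ, N < b ^ K → ∀ f : ℕ → ℕ, (∀ j, f j < b ∧ f j ≠ digit b j N) →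
    ∀ Λ : ℕ → Finset κ, (∀ x, y ≤ x → ((Λ x).card : ℝ) ≤ (x : ℝ) ^ A) →
      (exceptions b K r N f (fun t => ∀ x : ℕ, y ≤ x → (x : ℝ) ≤ Real.exp (c * r) → E (Λ x) x t) : ℝ) ≤
        (y : ℝ) ^ (-A) * (K.choose r : ℝ)

theorem law_of {κ : Type} (b : ℕ) (hb : 2 ≤ b) (A : ℝ) (Bad : κ → ℕ → ℕ → Prop)
    (hBad : ∀ l p m, Bad l p m ↔ Bad l p (m % p)) (s C ε : ℝ) (hs : s ≤ 1) (hC : 0 ≤ C)
    (hε : 0 < ε) (p₀ : ℕ)
    (T : (l : κ) → (p : ℕ) → Set (ZMod p)) (hT : ∀ l p m, p.Prime → Bad l p m → (m : ZMod p) ∈ T l p)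
    (hTc : ∀ l, ∀ p : ℕ, p.Prime → p₀ ≤ p → ((T l p).ncard : ℝ) / p ≤ C * (p : ℝ) ^ (-s)) :
    FewDigitLaw b A (fun Λ x t => ∀ l ∈ Λ,
      (countPrimes x (fun p => Bad l p t) : ℝ) ≤ (x : ℝ) ^ (1 - s + ε)) := by
  classical
  obtain ⟨x₀, h1⟩ := Pool.Agent.Q213.FD.sum_dens_pow (ε / 2) (by positivity) s C hs hC p₀
  obtain ⟨c, hc, y₀, h2⟩ := Pool.Agent.Q213.FD.law_one b hb A A (ε / 2) (by positivity)
  refine ⟨c, hc, x₀ + y₀, fun K r y hrK hy N hN f hf Λ hΛ => ?_⟩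
  have h3 := h2 K r y hrK (by omega) N hN f hf κ Λ hΛ Bad hBad (1 - s + ε / 2) (by linarith)
    (fun x hx l _ => h1 x (by omega) 1 _ fun p hp hpp =>
      (Pool.Agent.Q213.FD.dens_one _ p hp (T l p) fun m hm => hT l p (m 0) hp hm).trans
        (hTc l p hp hpp))
  refine le_trans (Nat.cast_le.2 (card_le_card ?_)) h3
  intro S hS
  have hS' := mem_filter.1 hS
  refine mem_filter.2 ⟨hS'.1, fun hcon => hS'.2 fun x hx hxr l hl => ?_⟩
  have h5 := hcon x hx hxr l hl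
  have h6 : 1 - s + ε / 2 + ε / 2 = 1 - s + ε := by ring
  rw [h6] at h5
  refine le_trans (Nat.cast_le.2 (card_le_card ?_)) h5
  intro p hp
  have hp' := mem_filter.1 hp
  exact mem_filter.2 ⟨mem_filter.2 ⟨hp'.1, hp'.2.1⟩, hp'.2.2⟩

theorem part1 (b : ℕ) (hb : 2 ≤ b) (A δ τ ε : ℝ) (hδ : 0 < δ) (hδ1 : δ ≤ 1) (hτ : 0 ≤ τ)
    (hτ1 : τ < 1 / 2) (hε : 0 < ε) :
    FewDigitLaw b A (fun (Λ : Finset (Sets δ × Chars)) x t => ∀ D ∈ Λ,
      (countPrimes x (fun p => ((mob (D.1.A p) (t : ZMod p)).card : ℝ) ^ (2 - τ) ≤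
        ‖∑ a ∈ mob (D.1.A p) (t : ZMod p), ∑ b ∈ mob (D.1.A p) (t : ZMod p), D.2.χ p (a - b)‖) : ℝ) ≤
        (x : ℝ) ^ (1 - δ * (1 - 2 * τ) + ε)) := by
  refine law_of b hb A (fun (D : Sets δ × Chars) p t =>
    ((mob (D.1.A p) (t : ZMod p)).card : ℝ) ^ (2 - τ) ≤
        ‖∑ a ∈ mob (D.1.A p) (t : ZMod p), ∑ b ∈ mob (D.1.A p) (t : ZMod p), D.2.χ p (a - b)‖)
    ?_ (δ * (1 - 2 * τ)) 16 ε ?_ (by norm_num) hε 0
    (fun D p => {t : ZMod p | ((mob (D.1.A p) t).card : ℝ) ^ (2 - τ) ≤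
        ‖∑ a ∈ mob (D.1.A p) t, ∑ b ∈ mob (D.1.A p) t, D.2.χ p (a - b)‖}) ?_ ?_
  · intro D p m
    rw [ZMod.natCast_mod]
  · nlinarith
  · intro D p m _ hm
    exact hm
  · intro D p hp _
    have hp0 : (0 : ℝ) < p := by exact_mod_cast hp.pos
    have hp1 : (1 : ℝ) < p := by exact_mod_cast hp.one_lt
    have hA := D.1.large p hp
    have hA1 : (1 : ℝ) < (D.1.A p).card := (Real.one_lt_rpow hp1 hδ).trans hA
    have hA0 : (0 : ℝ) < (D.1.A p).card := by linarith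
    have hA2 : 2 ≤ (D.1.A p).card := by
      have : 1 < (D.1.A p).card := by exact_mod_cast hA1
      omega
    have h1 := Pool.Agent.H735CB.mob_single p hp (D.1.A p) hA2 (D.2.χ p) (D.2.nonprincipal p hp) τ hτ
      (by linarith)
    rw [div_le_iff₀ hp0]
    refine h1.trans ?_
    have h2 : ((D.1.A p).card : ℝ) ^ (2 * τ - 1) ≤ (p : ℝ) ^ (-(δ * (1 - 2 * τ))) := by
      have e1 : (p : ℝ) ^ (-(δ * (1 - 2 * τ))) = ((p : ℝ) ^ δ) ^ (2 * τ - 1) := by
        rw [← Real.rpow_mul hp0.le]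
        congr 1
        ring
      rw [e1]
      exact Real.rpow_le_rpow_of_nonpos (by positivity) hA.le (by linarith)
    calc 16 * (p : ℝ) * ((D.1.A p).card : ℝ) ^ (2 * τ - 1) ≤
          16 * (p : ℝ) * (p : ℝ) ^ (-(δ * (1 - 2 * τ))) :=
          mul_le_mul_of_nonneg_left h2 (by positivity)
      _ = _ := by ring

theorem pairs_to (p : ℕ) (hp : p.Prime) (R : ZMod p → DirichletCharacter ℂ p → Prop) (η : ℝ)
    (h : ({q : ZMod p × DirichletCharacter ℂ p | R q.1 q.2}.ncard : ℝ) ≤ (p : ℝ) ^ (1 + η)) :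
    ({t : ZMod p | (p : ℝ) ^ (2 * η) < ({χ : DirichletCharacter ℂ p | R t χ}.ncard : ℝ)}.ncard : ℝ) / p ≤
      1 * (p : ℝ) ^ (-η) := by
  have : Fact p.Prime := ⟨hp⟩
  have hp0 : (0 : ℝ) < p := by exact_mod_cast hp.pos
  have h1 := (Pool.Agent.Q213.FD.pairs_markov R ((p : ℝ) ^ (2 * η))).trans h
  rw [div_le_iff₀ hp0, one_mul]
  rw [← le_div_iff₀ (by positivity)] at h1
  refine h1.trans (le_of_eq ?_)
  rw [div_eq_iff (by positivity), ← Real.rpow_add_one hp0.ne', ← Real.rpow_add hp0]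
  congr 1
  ring

theorem part2 (b : ℕ) (hb : 2 ≤ b) (A δ η ε : ℝ) (hδ : 0 < δ) (hη : 0 < η) (hη1 : η ≤ 1)
    (hε : 0 < ε) : ∃ τ : ℝ, 0 < τ ∧
    FewDigitLaw b A (fun (Λ : Finset (Sets δ)) x t => ∀ D ∈ Λ,
      (countPrimes x (fun p => (p : ℝ) ^ (2 * η) < ({χ : DirichletCharacter ℂ p |
        ((mob (D.A p) (t : ZMod p)).card : ℝ) ^ (2 - τ) ≤
        ‖∑ a ∈ mob (D.A p) (t : ZMod p), ∑ b ∈ mob (D.A p) (t : ZMod p), χ (a - b)‖}.ncard : ℝ)) : ℝ) ≤
        (x : ℝ) ^ (1 - η + ε)) := by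
  obtain ⟨τ, hτ, P, h1⟩ := Pool.Agent.H735CB.mob_pairs δ η hδ hη
  refine ⟨τ, hτ, law_of b hb A (fun (D : Sets δ) p t => (p : ℝ) ^ (2 * η) <
      ({χ : DirichletCharacter ℂ p | ((mob (D.A p) (t : ZMod p)).card : ℝ) ^ (2 - τ) ≤
        ‖∑ a ∈ mob (D.A p) (t : ZMod p), ∑ b ∈ mob (D.A p) (t : ZMod p), χ (a - b)‖}.ncard : ℝ))
    ?_ η 1 ε hη1 (by norm_num) hε P
    (fun D p => {t : ZMod p | (p : ℝ) ^ (2 * η) <
      ({χ : DirichletCharacter ℂ p | ((mob (D.A p) t).card : ℝ) ^ (2 - τ) ≤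
        ‖∑ a ∈ mob (D.A p) t, ∑ b ∈ mob (D.A p) t, χ (a - b)‖}.ncard : ℝ)}) ?_ ?_⟩
  · intro D p m
    rw [ZMod.natCast_mod]
  · intro D p m _ hm
    exact hm
  · intro D p hp hpP
    exact pairs_to p hp (fun t χ => ((mob (D.A p) t).card : ℝ) ^ (2 - τ) ≤
        ‖∑ a ∈ mob (D.A p) t, ∑ b ∈ mob (D.A p) t, χ (a - b)‖) η
      (h1 p hp hpP (D.A p) (D.large p hp))

theorem part3 (b : ℕ) (hb : 2 ≤ b) (A δ κ η ε : ℝ) (hδ : 0 < δ) (hκ : 0 < κ) (hη : 0 < η)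
    (hη1 : η ≤ 1) (hε : 0 < ε) : ∃ τ : ℝ, 0 < τ ∧
    FewDigitLaw b A (fun (Λ : Finset (Planar δ κ)) x t => ∀ D ∈ Λ,
      (countPrimes x (fun p => (p : ℝ) ^ (2 * η) < ({χ : DirichletCharacter ℂ p |
        ((D.P p).card : ℝ) ^ (2 - τ) ≤ ‖∑ z ∈ D.P p, ∑ w ∈ D.P p,
          χ ((z.1 + (t : ZMod p) * z.2) - (w.1 + (t : ZMod p) * w.2))‖}.ncard : ℝ)) : ℝ) ≤
        (x : ℝ) ^ (1 - η + ε)) := by
  obtain ⟨τ, hτ, P, h1⟩ := Pool.Agent.H735CB.proj_pairs δ κ η hδ hκ hη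
  refine ⟨τ, hτ, law_of b hb A (fun (D : Planar δ κ) p t => (p : ℝ) ^ (2 * η) <
      ({χ : DirichletCharacter ℂ p | ((D.P p).card : ℝ) ^ (2 - τ) ≤ ‖∑ z ∈ D.P p, ∑ w ∈ D.P p,
          χ ((z.1 + (t : ZMod p) * z.2) - (w.1 + (t : ZMod p) * w.2))‖}.ncard : ℝ))
    ?_ η 1 ε hη1 (by norm_num) hε P
    (fun D p => {t : ZMod p | (p : ℝ) ^ (2 * η) <
      ({χ : DirichletCharacter ℂ p | ((D.P p).card : ℝ) ^ (2 - τ) ≤ ‖∑ z ∈ D.P p, ∑ w ∈ D.P p,
          χ ((z.1 + t * z.2) - (w.1 + t * w.2))‖}.ncard : ℝ)}) ?_ ?_⟩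
  · intro D p m
    rw [ZMod.natCast_mod]
  · intro D p m _ hm
    exact hm
  · intro D p hp hpP
    exact pairs_to p hp (fun t χ => ((D.P p).card : ℝ) ^ (2 - τ) ≤ ‖∑ z ∈ D.P p, ∑ w ∈ D.P p,
          χ ((z.1 + t * z.2) - (w.1 + t * w.2))‖) η
      (h1 p hp hpP (D.P p) (D.large p hp) (D.lines p hp))

/-- **Difference sums for nearly all primes with one integer parameter.** -/
theorem result (b : ℕ) (hb : 2 ≤ b) (A : ℝ) :
    (∀ δ τ ε : ℝ, 0 < δ → δ ≤ 1 → 0 ≤ τ → τ < 1 / 2 → 0 < ε →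
      FewDigitLaw b A (fun (Λ : Finset (Sets δ × Chars)) x t => ∀ D ∈ Λ,
        (countPrimes x (fun p => ((mob (D.1.A p) (t : ZMod p)).card : ℝ) ^ (2 - τ) ≤
          ‖∑ a ∈ mob (D.1.A p) (t : ZMod p), ∑ b ∈ mob (D.1.A p) (t : ZMod p),
            D.2.χ p (a - b)‖) : ℝ) ≤ (x : ℝ) ^ (1 - δ * (1 - 2 * τ) + ε))) ∧
    (∀ δ η ε : ℝ, 0 < δ → 0 < η → η ≤ 1 → 0 < ε → ∃ τ : ℝ, 0 < τ ∧
      FewDigitLaw b A (fun (Λ : Finset (Sets δ)) x t => ∀ D ∈ Λ,
        (countPrimes x (fun p => (p : ℝ) ^ (2 * η) < ({χ : DirichletCharacter ℂ p |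
          ((mob (D.A p) (t : ZMod p)).card : ℝ) ^ (2 - τ) ≤
          ‖∑ a ∈ mob (D.A p) (t : ZMod p), ∑ b ∈ mob (D.A p) (t : ZMod p),
            χ (a - b)‖}.ncard : ℝ)) : ℝ) ≤ (x : ℝ) ^ (1 - η + ε))) ∧
    (∀ δ κ η ε : ℝ, 0 < δ → 0 < κ → 0 < η → η ≤ 1 → 0 < ε → ∃ τ : ℝ, 0 < τ ∧
      FewDigitLaw b A (fun (Λ : Finset (Planar δ κ)) x t => ∀ D ∈ Λ,
        (countPrimes x (fun p => (p : ℝ) ^ (2 * η) < ({χ : DirichletCharacter ℂ p |
          ((D.P p).card : ℝ) ^ (2 - τ) ≤ ‖∑ z ∈ D.P p, ∑ w ∈ D.P p,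
            χ ((z.1 + (t : ZMod p) * z.2) - (w.1 + (t : ZMod p) * w.2))‖}.ncard : ℝ)) : ℝ) ≤
          (x : ℝ) ^ (1 - η + ε))) :=
  ⟨fun δ τ ε h1 h2 h3 h4 h5 => part1 b hb A δ τ ε h1 h2 h3 h4 h5,
    fun δ η ε h1 h2 h3 h4 => part2 b hb A δ η ε h1 h2 h3 h4,
    fun δ κ η ε h1 h2 h3 h4 h5 => part3 b hb A δ κ η ε h1 h2 h3 h4 h5⟩

end Pool.Agent.Results.MP_cb27ba_nt.FewDigitMoebius
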