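import Mathlib
import Pool.Agent.H735CB.Final

/-!
# Difference sums over projections of planar sets: one character, explicit bounds

Let `P` be a set of points of the plane over `ZMod p` with at most `L` points on every line.  For
every nonprincipal character `χ` and all `τ`, the difference sum of `χ` over the (weighted)
projection `x + t y` of `P` is at least `|P| ^ (2 - τ)` for at most `|P| ^ (2 τ) (1 + p L / |P|)`
directions `t`.
-/

set_option autoImplicit false

open Finset

namespace Pool.Agent.Results.MP_cb27ba_nt.ProjectionOneCharacter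

/-- A planar set with at most `L` points on every line; one nonprincipal character; the power saving
for the difference sum over the projections `x + t y` of the set holds for all directions `t` but at
most `|P| ^ (2 τ) (1 + p L / |P|)`. -/
theorem result (p : ℕ) (hp : p.Prime) (P : Finset (ZMod p × ZMod p)) (L : ℕ) (hP : P.Nonempty)
    (hL : ∀ α β γ : ZMod p, (α ≠ 0 ∨ β ≠ 0) →
      (P.filter (fun z => α * z.1 + β * z.2 = γ)).card ≤ L)
    (χ : DirichletCharacter ℂ p) (hχ : χ ≠ 1) (τ : ℝ) :
    ({t : ZMod p | (P.card : ℝ) ^ (2 - τ)
        ≤ ‖∑ x ∈ P, ∑ y ∈ P, χ ((x.1 + t * x.2) - (y.1 + t * y.2))‖}.ncard : ℝ)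
      ≤ (P.card : ℝ) ^ (2 * τ) * (1 + p * L / P.card) :=
  Pool.Agent.H735CB.proj_single p hp P hP L hL χ hχ τ

end Pool.Agent.Results.MP_cb27ba_nt.ProjectionOneCharacter
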