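import Pool.Agent.Y881.BI.Final

/-!
# Difference sums over unions of pieces nearly invariant under different sets of bounded doubling

Let `D = ⊔ A i` and `D' = ⊔ B j` be disjoint unions of any numbers of sets. Each piece is nearly invariant under the
translations by some set `P i`, respectively `Q j`, with at least `p ^ ε` elements and of bounded doubling (for instance
a generalised arithmetic progression of bounded dimension or a Bohr set of bounded rank); these sets may be different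
for different pieces. For every nonprincipal `χ` the bilinear form with kernel `χ (a - b)` over `D × D'` has a power
saving, for arbitrary coefficients, unless for many pairs of pieces many of the differences `a - b`,
`(a, b) ∈ A i × B j`, belong to a set with at most `p ^ (1 / 2 - κ)` elements. Pairs of pieces with a total weight
`∑ |A i| |B j|` of at most `p ^ (- ϑ) |D| |D'|` may be ignored. The consequence for `A' ⊆ D ∩ D'` is the inequality of
the question for `A'` and for all images of `A'` under fractional linear maps.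

The bound for one pair of pieces is the library theorem `Pool.Agent.Y881.DS.doubling_diff` of the starting files.
-/

set_option autoImplicit false

namespace Pool.Agent.Results.MP_cb27ba_nt.ThickUnionsDoubling

open Finset
open scoped Pointwise

/-- `P` has at least `p ^ ε` elements and doubling at most `K`, and `A` is nearly invariant under the translations by
the elements of `P`: `|A + P| ≤ p ^ τ |A|`. -/
structure NearlyInvariant (p : ℕ) (ε K τ : ℝ) (A P : Finset (ZMod p)) : Prop where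
  large : (p : ℝ) ^ ε ≤ P.card
  doubling : ((P + P).card : ℝ) ≤ K * P.card
  invariant : ((A + P).card : ℝ) ≤ (p : ℝ) ^ τ * A.card

/-- No set of at most `p ^ (1 / 2 - κ)` elements contains more than `p ^ (- ϑ) |A| |B|` of the differences `a - b`,
`(a, b) ∈ A × B`. -/
def Spread (p : ℕ) (κ ϑ : ℝ) (A B : Finset (ZMod p)) : Prop :=
  ∀ X : Finset (ZMod p), (X.card : ℝ) ≤ (p : ℝ) ^ (1 / 2 - κ) →
    (((A ×ˢ B).filter fun t => t.1 - t.2 ∈ X).card : ℝ) ≤ (p : ℝ) ^ (-ϑ) * (A.card * B.card)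

/-- the trivial bound for a pair of pieces -/
lemma trivial_pair {p : ℕ} [Fact p.Prime] (χ : DirichletCharacter ℂ p) (A B : Finset (ZMod p)) (f g : ZMod p → ℂ) :
    ‖∑ a ∈ A, ∑ b ∈ B, f a * g b * χ (a - b)‖ ≤
      (Real.sqrt A.card * Real.sqrt B.card) * (Real.sqrt (∑ a ∈ A, ‖f a‖ ^ 2) * Real.sqrt (∑ b ∈ B, ‖g b‖ ^ 2)) := by
  have h0 : ∀ (X : Finset (ZMod p)) (F : ZMod p → ℂ), ∑ a ∈ X, ‖F a‖ ≤ Real.sqrt X.card * Real.sqrt (∑ a ∈ X, ‖F a‖ ^ 2) := by
    intro X F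
    rw [← Real.sqrt_mul (Nat.cast_nonneg _)]
    apply Real.le_sqrt_of_sq_le
    exact sq_sum_le_card_mul_sum_sq
  calc ‖∑ a ∈ A, ∑ b ∈ B, f a * g b * χ (a - b)‖ ≤ ∑ a ∈ A, ∑ b ∈ B, ‖f a‖ * ‖g b‖ := by
        refine (norm_sum_le _ _).trans (sum_le_sum fun a _ => (norm_sum_le _ _).trans (sum_le_sum fun b _ => ?_))
        rw [norm_mul, norm_mul]
        exact mul_le_of_le_one_right (by positivity) (χ.norm_le_one _)
    _ = (∑ a ∈ A, ‖f a‖) * ∑ b ∈ B, ‖g b‖ := by rw [sum_mul_sum]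
    _ ≤ (Real.sqrt A.card * Real.sqrt (∑ a ∈ A, ‖f a‖ ^ 2)) * (Real.sqrt B.card * Real.sqrt (∑ b ∈ B, ‖g b‖ ^ 2)) :=
        mul_le_mul (h0 A f) (h0 B g) (sum_nonneg fun _ _ => norm_nonneg _) (by positivity)
    _ = _ := by ring

/-- Let `ε > 0` and `K` be fixed. There is `κ > 0` such that for every `ϑ > 0` there are `τ > 0` and `p₀` with the
following property for all primes `p ≥ p₀` and all nonprincipal characters `χ` modulo `p`. Let `D = ⊔ A i` and
`D' = ⊔ B j`, where `A i`, `B j` are nearly invariant under the translations by sets `P i`, `Q j` of bounded doubling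
with at least `p ^ ε` elements, and let the differences of `A i` and `B j` be spread for all `(i, j)` outside a set `E`
of pairs with `∑ |A i| |B j| ≤ p ^ (- ϑ) |D| |D'|`.

* For all `f`, `g` the sum of `f a * g b * χ (a - b)` over `D × D'` is at most
  `p ^ (- τ) √(|D| |D'|) ‖f‖ ‖g‖` (norms in `ℓ²` of `D` and `D'`).
* If `A' ⊆ D ∩ D'` and `√(|D| |D'|) ≤ p ^ τ |A'|`, `A'` not empty, then `|∑ χ (x - y)| < |C| ^ (2 - τ)`, sum over
  `x, y ∈ C`, for every image `C` of `A'` under a fractional linear map without poles in `A'`. -/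
theorem result (ε K : ℝ) (hε : 0 < ε) : ∃ κ : ℝ, 0 < κ ∧ ∀ ϑ : ℝ, 0 < ϑ → ∃ τ : ℝ, 0 < τ ∧ ∃ p₀ : ℕ,
    ∀ p : ℕ, p.Prime → p₀ ≤ p → ∀ χ : DirichletCharacter ℂ p, χ ≠ 1 →
    ∀ (n m : ℕ) (A P : Fin n → Finset (ZMod p)) (B Q : Fin m → Finset (ZMod p)) (D D' : Finset (ZMod p))
      (E : Finset (Fin n × Fin m)),
      (∀ i, NearlyInvariant p ε K τ (A i) (P i)) → (∀ j, NearlyInvariant p ε K τ (B j) (Q j)) →
      (∀ i j, i ≠ j → Disjoint (A i) (A j)) → (∀ i j, i ≠ j → Disjoint (B i) (B j)) →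
      D = Finset.univ.biUnion A → D' = Finset.univ.biUnion B →
      (∀ i j, (i, j) ∉ E → Spread p κ ϑ (A i) (B j)) →
      ∑ e ∈ E, ((A e.1).card : ℝ) * (B e.2).card ≤ (p : ℝ) ^ (-ϑ) * (D.card * D'.card) →
      (∀ f g : ZMod p → ℂ, ‖∑ a ∈ D, ∑ b ∈ D', f a * g b * χ (a - b)‖ ≤
        (p : ℝ) ^ (-τ) * Real.sqrt (D.card * D'.card) *
          (Real.sqrt (∑ a ∈ D, ‖f a‖ ^ 2) * Real.sqrt (∑ b ∈ D', ‖g b‖ ^ 2))) ∧
      ∀ A' : Finset (ZMod p), A'.Nonempty → A' ⊆ D → A' ⊆ D' →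
        Real.sqrt (D.card * D'.card) ≤ (p : ℝ) ^ τ * A'.card →
        ∀ α β γ δ : ZMod p, α * δ - β * γ ≠ 0 → (∀ a ∈ A', γ * a + δ ≠ 0) →
          ∀ C : Finset (ZMod p), C = (A'.image fun a => (α * a + β) * (γ * a + δ)⁻¹) →
            ‖∑ x ∈ C, ∑ y ∈ C, χ (x - y)‖ < (C.card : ℝ) ^ (2 - τ) := by
  classical
  obtain ⟨κ, hκ, h⟩ := Pool.Agent.Y881.DS.doubling_diff ε K hε
  refine ⟨κ, hκ, fun ϑ hϑ => ?_⟩
  obtain ⟨τ₀, hτ₀, p₀, h⟩ := h ϑ hϑ
  obtain ⟨σ, hσ⟩ : ∃ σ : ℝ, σ = min τ₀ (ϑ / 2) := ⟨_, rfl⟩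
  have hσ0 : 0 < σ := by rw [hσ]; exact lt_min hτ₀ (by positivity)
  have hσ1 : σ ≤ τ₀ := by rw [hσ]; exact min_le_left _ _
  have hσ2 : σ ≤ ϑ / 2 := by rw [hσ]; exact min_le_right _ _
  refine ⟨σ / 8, by positivity, p₀ + ⌈(2 : ℝ) ^ (2 / σ)⌉₊ + 1, ?_⟩
  intro p hpp hp χ hχ n m A P B Q D D' E hA hB hdisj hdisj' hD hD' hsp hE
  have hF : Fact p.Prime := ⟨hpp⟩
  have hp1 : (1 : ℝ) < p := by exact_mod_cast hpp.one_lt
  have hpR : (1 : ℝ) ≤ p := hp1.le
  have hp0 : (0 : ℝ) < p := by linarith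
  have h2p : (2 : ℝ) ≤ (p : ℝ) ^ (σ / 2) := by
    have h1 : (2 : ℝ) ^ (2 / σ) ≤ p := by
      refine (Nat.le_ceil _).trans ?_
      exact_mod_cast (by omega : ⌈(2 : ℝ) ^ (2 / σ)⌉₊ ≤ p)
    calc (2 : ℝ) = ((2 : ℝ) ^ (2 / σ)) ^ (σ / 2) := by
          rw [← Real.rpow_mul (by norm_num)]
          have : 2 / σ * (σ / 2) = 1 := by field_simp
          rw [this, Real.rpow_one]
      _ ≤ (p : ℝ) ^ (σ / 2) := Real.rpow_le_rpow (by positivity) h1 (by positivity)
  have hτ4 : (p : ℝ) ^ (σ / 8) ≤ (p : ℝ) ^ τ₀ := Real.rpow_le_rpow_of_exponent_le hpR (by linarith)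
  have hpair : ∀ i j, (i, j) ∉ E → ∀ f g : ZMod p → ℂ, ‖∑ a ∈ A i, ∑ b ∈ B j, f a * g b * χ (a - b)‖ ≤
      (p : ℝ) ^ (-σ) * ((Real.sqrt (A i).card * Real.sqrt (B j).card) *
        (Real.sqrt (∑ a ∈ A i, ‖f a‖ ^ 2) * Real.sqrt (∑ b ∈ B j, ‖g b‖ ^ 2))) := by
    intro i j hij f g
    refine (h p (by omega) χ hχ (A i) (B j) (P i) (Q j) (hA i).large (hB j).large (hA i).doubling (hB j).doubling
      ((hA i).invariant.trans (mul_le_mul_of_nonneg_right hτ4 (Nat.cast_nonneg _)))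
      ((hB j).invariant.trans (mul_le_mul_of_nonneg_right hτ4 (Nat.cast_nonneg _)))
      (fun X hX => by convert hsp i j hij X hX) f g).trans ?_
    exact mul_le_mul_of_nonneg_right (Real.rpow_le_rpow_of_exponent_le hpR (by linarith)) (by positivity)
  have hdis : Set.PairwiseDisjoint (univ : Finset (Fin n)) A := fun i _ j _ hij => hdisj i j hij
  have hdis' : Set.PairwiseDisjoint (univ : Finset (Fin m)) B := fun i _ j _ hij => hdisj' i j hij
  have hD1 : ∀ F : ZMod p → ℝ, ∑ a ∈ D, F a = ∑ i, ∑ a ∈ A i, F a := fun F => by rw [hD, sum_biUnion hdis]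
  have hD2 : ∀ F : ZMod p → ℂ, ∑ a ∈ D, F a = ∑ i, ∑ a ∈ A i, F a := fun F => by rw [hD, sum_biUnion hdis]
  have hD1' : ∀ F : ZMod p → ℝ, ∑ a ∈ D', F a = ∑ j, ∑ a ∈ B j, F a := fun F => by rw [hD', sum_biUnion hdis']
  have hD2' : ∀ F : ZMod p → ℂ, ∑ a ∈ D', F a = ∑ j, ∑ a ∈ B j, F a := fun F => by rw [hD', sum_biUnion hdis']
  have hcs : ∀ (k : ℕ) (X : Fin k → Finset (ZMod p)) (Y : Finset (ZMod p)),
      (∀ F : ZMod p → ℝ, ∑ a ∈ Y, F a = ∑ i, ∑ a ∈ X i, F a) → ∀ F : ZMod p → ℂ,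
      ∑ i, Real.sqrt (X i).card * Real.sqrt (∑ a ∈ X i, ‖F a‖ ^ 2) ≤
      Real.sqrt Y.card * Real.sqrt (∑ a ∈ Y, ‖F a‖ ^ 2) := by
    intro k X Y hY F
    have hYc : (Y.card : ℝ) = ∑ i, ((X i).card : ℝ) := by
      have h1 := hY fun _ => (1 : ℝ)
      simpa using h1
    rw [hYc, hY]
    exact Real.sum_sqrt_mul_sqrt_le _ (fun i => Nat.cast_nonneg _) (fun i => sum_nonneg fun _ _ => by positivity)
  -- the form over all pairs of pieces
  have hall : ∀ f g : ZMod p → ℂ, ‖∑ a ∈ D, ∑ b ∈ D', f a * g b * χ (a - b)‖ ≤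
        (p : ℝ) ^ (-(σ / 2)) * Real.sqrt (D.card * D'.card) *
          (Real.sqrt (∑ a ∈ D, ‖f a‖ ^ 2) * Real.sqrt (∑ b ∈ D', ‖g b‖ ^ 2)) := by
    intro f g
    obtain ⟨N, hN⟩ : ∃ N : ℝ, N = Real.sqrt (D.card * D'.card) *
        (Real.sqrt (∑ a ∈ D, ‖f a‖ ^ 2) * Real.sqrt (∑ b ∈ D', ‖g b‖ ^ 2)) := ⟨_, rfl⟩
    have hN0 : 0 ≤ N := by rw [hN]; positivity
    obtain ⟨T, hT⟩ : ∃ T : Fin n → Fin m → ℝ, T = fun i j => (Real.sqrt (A i).card * Real.sqrt (B j).card) *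
        (Real.sqrt (∑ a ∈ A i, ‖f a‖ ^ 2) * Real.sqrt (∑ b ∈ B j, ‖g b‖ ^ 2)) := ⟨_, rfl⟩
    have hT0 : ∀ i j, 0 ≤ T i j := fun i j => by rw [hT]; positivity
    have e1 : ∑ a ∈ D, ∑ b ∈ D', f a * g b * χ (a - b) = ∑ i, ∑ j, ∑ a ∈ A i, ∑ b ∈ B j, f a * g b * χ (a - b) := by
      rw [hD2]
      refine sum_congr rfl fun i _ => ?_
      symm
      rw [sum_comm]
      refine sum_congr rfl fun a _ => ?_
      rw [hD2']
    have hpt : ∀ i j, ‖∑ a ∈ A i, ∑ b ∈ B j, f a * g b * χ (a - b)‖ ≤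
        (p : ℝ) ^ (-σ) * T i j + if (i, j) ∈ E then T i j else 0 := by
      intro i j
      by_cases hij : (i, j) ∈ E
      · rw [if_pos hij]
        have h1 := trivial_pair χ (A i) (B j) f g
        have h2 : 0 ≤ (p : ℝ) ^ (-σ) * T i j := mul_nonneg (by positivity) (hT0 i j)
        have h3 : T i j = (Real.sqrt (A i).card * Real.sqrt (B j).card) *
          (Real.sqrt (∑ a ∈ A i, ‖f a‖ ^ 2) * Real.sqrt (∑ b ∈ B j, ‖g b‖ ^ 2)) := by rw [hT]
        rw [← h3] at h1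
        linarith
      · rw [if_neg hij, add_zero]
        have h1 := hpair i j hij f g
        rw [hT]
        exact h1
    have hmain : ∑ i, ∑ j, T i j ≤ N := by
      calc ∑ i, ∑ j, T i j = (∑ i, Real.sqrt (A i).card * Real.sqrt (∑ a ∈ A i, ‖f a‖ ^ 2)) *
            (∑ j, Real.sqrt (B j).card * Real.sqrt (∑ a ∈ B j, ‖g a‖ ^ 2)) := by
            rw [sum_mul_sum]
            refine sum_congr rfl fun i _ => sum_congr rfl fun j _ => ?_
            rw [hT]
            ring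
        _ ≤ (Real.sqrt D.card * Real.sqrt (∑ a ∈ D, ‖f a‖ ^ 2)) * (Real.sqrt D'.card * Real.sqrt (∑ a ∈ D', ‖g a‖ ^ 2)) :=
            mul_le_mul (hcs n A D hD1 f) (hcs m B D' hD1' g)
              (sum_nonneg fun _ _ => mul_nonneg (Real.sqrt_nonneg _) (Real.sqrt_nonneg _))
              (mul_nonneg (Real.sqrt_nonneg _) (Real.sqrt_nonneg _))
        _ = N := by
            rw [hN, Real.sqrt_mul (Nat.cast_nonneg _)]
            ring
    have hexc : ∑ i, ∑ j, (if (i, j) ∈ E then T i j else 0) ≤ (p : ℝ) ^ (-(ϑ / 2)) * N := by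
      have e2 : ∑ i, ∑ j, (if (i, j) ∈ E then T i j else 0) = ∑ e ∈ E, T e.1 e.2 := by
        rw [← Fintype.sum_prod_type' (f := fun i j => if (i, j) ∈ E then T i j else 0)]
        rw [← sum_filter]
        refine sum_congr ?_ fun _ _ => rfl
        ext e
        simp
      have e3 : ∀ e : Fin n × Fin m, T e.1 e.2 = Real.sqrt (((A e.1).card : ℝ) * (B e.2).card) *
          Real.sqrt ((∑ a ∈ A e.1, ‖f a‖ ^ 2) * ∑ b ∈ B e.2, ‖g b‖ ^ 2) := by
        intro e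
        rw [hT, Real.sqrt_mul (Nat.cast_nonneg _), Real.sqrt_mul (sum_nonneg fun _ _ => by positivity)]
      rw [e2]
      calc ∑ e ∈ E, T e.1 e.2 = ∑ e ∈ E, Real.sqrt (((A e.1).card : ℝ) * (B e.2).card) *
            Real.sqrt ((∑ a ∈ A e.1, ‖f a‖ ^ 2) * ∑ b ∈ B e.2, ‖g b‖ ^ 2) := sum_congr rfl fun e _ => e3 e
        _ ≤ Real.sqrt (∑ e ∈ E, ((A e.1).card : ℝ) * (B e.2).card) *
            Real.sqrt (∑ e ∈ E, (∑ a ∈ A e.1, ‖f a‖ ^ 2) * ∑ b ∈ B e.2, ‖g b‖ ^ 2) :=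
            Real.sum_sqrt_mul_sqrt_le _ (fun e => by positivity)
              (fun e => mul_nonneg (sum_nonneg fun _ _ => by positivity) (sum_nonneg fun _ _ => by positivity))
        _ ≤ Real.sqrt ((p : ℝ) ^ (-ϑ) * (D.card * D'.card)) *
            Real.sqrt ((∑ a ∈ D, ‖f a‖ ^ 2) * ∑ b ∈ D', ‖g b‖ ^ 2) := by
            refine mul_le_mul (Real.sqrt_le_sqrt hE) (Real.sqrt_le_sqrt ?_) (Real.sqrt_nonneg _) (Real.sqrt_nonneg _)
            rw [hD1, hD1', sum_mul_sum]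
            rw [← Fintype.sum_prod_type' (f := fun i j => (∑ a ∈ A i, ‖f a‖ ^ 2) * ∑ b ∈ B j, ‖g b‖ ^ 2)]
            exact sum_le_sum_of_subset_of_nonneg (subset_univ _) fun e _ _ =>
              mul_nonneg (sum_nonneg fun _ _ => by positivity) (sum_nonneg fun _ _ => by positivity)
        _ = (p : ℝ) ^ (-(ϑ / 2)) * N := by
            have e4 : Real.sqrt ((p : ℝ) ^ (-ϑ)) = (p : ℝ) ^ (-(ϑ / 2)) := by
              rw [Real.sqrt_eq_rpow, ← Real.rpow_mul hp0.le]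
              congr 1
              ring
            rw [Real.sqrt_mul (by positivity), e4, Real.sqrt_mul (sum_nonneg fun _ _ => by positivity), hN]
            ring
    rw [e1]
    calc ‖∑ i, ∑ j, ∑ a ∈ A i, ∑ b ∈ B j, f a * g b * χ (a - b)‖ ≤
          ∑ i, ∑ j, ‖∑ a ∈ A i, ∑ b ∈ B j, f a * g b * χ (a - b)‖ :=
          (norm_sum_le _ _).trans (sum_le_sum fun i _ => norm_sum_le _ _)
      _ ≤ ∑ i, ∑ j, ((p : ℝ) ^ (-σ) * T i j + if (i, j) ∈ E then T i j else 0) :=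
          sum_le_sum fun i _ => sum_le_sum fun j _ => hpt i j
      _ = (p : ℝ) ^ (-σ) * ∑ i, ∑ j, T i j + ∑ i, ∑ j, (if (i, j) ∈ E then T i j else 0) := by
          simp only [sum_add_distrib, mul_sum]
      _ ≤ (p : ℝ) ^ (-σ) * N + (p : ℝ) ^ (-σ) * N := by
          refine add_le_add (mul_le_mul_of_nonneg_left hmain (by positivity)) (hexc.trans ?_)
          exact mul_le_mul_of_nonneg_right (Real.rpow_le_rpow_of_exponent_le hpR (by linarith)) hN0
      _ = 2 * (p : ℝ) ^ (-σ) * N := by ring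
      _ ≤ (p : ℝ) ^ (σ / 2) * (p : ℝ) ^ (-σ) * N := by gcongr
      _ = (p : ℝ) ^ (-(σ / 2)) * N := by
          rw [← Real.rpow_add hp0]
          congr 2
          ring
      _ = _ := by rw [hN]; ring
  refine ⟨fun f g => ?_, fun A' hne hA' hA'2 hdense α β γ δ hdet hpole C hC => ?_⟩
  · refine (hall f g).trans (mul_le_mul_of_nonneg_right (mul_le_mul_of_nonneg_right ?_ (Real.sqrt_nonneg _))
      (by positivity))
    exact Real.rpow_le_rpow_of_exponent_le hpR (by linarith)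
  · obtain ⟨h1, h2⟩ := Pool.Agent.Y881.BI.mob_sum χ A' ((p : ℝ) ^ (-(σ / 2)) * Real.sqrt (D.card * D'.card))
      (by positivity) (Pool.Agent.Y881.BI.form_sub D D' A' hA' hA'2 (fun a b => χ (a - b)) _ hall) α β γ δ hdet
      hpole C hC
    have hA'c : (0 : ℝ) < A'.card := by exact_mod_cast hne.card_pos
    have hA'p : (A'.card : ℝ) ≤ p := by
      have := card_le_univ A'
      rw [ZMod.card] at this
      exact_mod_cast this
    rw [h1]
    refine lt_of_le_of_lt h2 ?_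
    have h3 : (A'.card : ℝ) ^ (σ / 8) ≤ (p : ℝ) ^ (σ / 8) :=
      Real.rpow_le_rpow hA'c.le hA'p (by positivity)
    have h4 : (A'.card : ℝ) ^ (2 - σ / 8) = (A'.card : ℝ) ^ 2 / (A'.card : ℝ) ^ (σ / 8) := by
      rw [Real.rpow_sub hA'c, Real.rpow_two]
    rw [h4, lt_div_iff₀ (by positivity)]
    calc (p : ℝ) ^ (-(σ / 2)) * Real.sqrt (D.card * D'.card) * A'.card * (A'.card : ℝ) ^ (σ / 8)
        ≤ (p : ℝ) ^ (-(σ / 2)) * ((p : ℝ) ^ (σ / 8) * A'.card) * A'.card * (p : ℝ) ^ (σ / 8) := by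
          refine mul_le_mul ?_ h3 (by positivity) (by positivity)
          refine mul_le_mul_of_nonneg_right ?_ hA'c.le
          exact mul_le_mul_of_nonneg_left hdense (by positivity)
      _ = (p : ℝ) ^ (-(σ / 2) + σ / 8 + σ / 8) * (A'.card : ℝ) ^ 2 := by
          rw [Real.rpow_add hp0, Real.rpow_add hp0]
          ring
      _ < 1 * (A'.card : ℝ) ^ 2 := by
          refine mul_lt_mul_of_pos_right ?_ (by positivity)
          exact Real.rpow_lt_one_of_one_lt_of_neg hp1 (by linarith)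
      _ = _ := one_mul _

end Pool.Agent.Results.MP_cb27ba_nt.ThickUnionsDoubling
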